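import Mathlib

set_option autoImplicit false

namespace Pool.Agent.Helper150.Walsh

open MeasureTheory Finset

noncomputable section

/-- Rademacher type function. -/
def rad (k : ℕ) (x : ℝ) : ℝ := (-1) ^ (⌊(2:ℝ)^k * x⌋₊)

/-- Product of `r` consecutive Rademacher functions (a Thue-Morse block). -/
def tm (r A : ℕ) (x : ℝ) : ℝ := ∏ i ∈ range r, rad (A + i + 1) x

/-- dyadic interval -/
def dy (A i : ℕ) : Set ℝ := Set.Ico ((i:ℝ) / 2^A) (((i:ℝ)+1)/2^A)

/-- the top moment constant -/
def kap : ℕ → ℝ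
  | 0 => 1
  | (r+1) => -((r:ℝ)+1) / 2^(r+2) * kap r

lemma kap_ne_zero (r : ℕ) : kap r ≠ 0 := by
  induction r with
  | zero => simp [kap]
  | succ r ih =>
    simp only [kap]
    apply mul_ne_zero _ ih
    apply div_ne_zero
    · have : (0:ℝ) < (r:ℝ) + 1 := by positivity
      exact neg_ne_zero.mpr this.ne'
    · positivity

lemma rad_abs (k : ℕ) (x : ℝ) : |rad k x| = 1 := by
  unfold rad; rw [abs_pow]; simp

lemma tm_abs (r A : ℕ) (x : ℝ) : |tm r A x| = 1 := by
  unfold tm; rw [abs_prod]; simp [rad_abs]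

lemma rad_measurable (k : ℕ) : Measurable (rad k) := by
  unfold rad
  have : Measurable (fun x : ℝ => ⌊(2:ℝ)^k * x⌋₊) := Nat.measurable_floor.comp (measurable_const_mul _)
  exact (measurable_from_nat (f := fun n : ℕ => (-1:ℝ)^n)).comp this

lemma tm_measurable (r A : ℕ) : Measurable (tm r A) := by
  unfold tm
  exact Finset.measurable_fun_prod _ (fun i _ => rad_measurable _)

lemma tm_zero (A : ℕ) (x : ℝ) : tm 0 A x = 1 := by simp [tm]

lemma tm_succ (r A : ℕ) (x : ℝ) : tm (r+1) A x = rad (A+1) x * tm r (A+1) x := by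
  unfold tm
  rw [Finset.prod_range_succ']
  rw [mul_comm]
  congr 1
  apply Finset.prod_congr rfl
  intro i _
  congr 1
  ring

lemma mem_dy_iff {A i : ℕ} {x : ℝ} (hx : 0 ≤ x) : x ∈ dy A i ↔ ⌊(2:ℝ)^A * x⌋₊ = i := by
  have h2 : (0:ℝ) < 2^A := by positivity
  unfold dy
  rw [Set.mem_Ico, div_le_iff₀ h2, lt_div_iff₀ h2, Nat.floor_eq_iff (by positivity)]
  constructor
  · rintro ⟨h, h'⟩; constructor <;> nlinarith
  · rintro ⟨h, h'⟩; constructor <;> nlinarith

lemma dy_nonneg {A i : ℕ} {x : ℝ} (hx : x ∈ dy A i) : 0 ≤ x :=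
  le_trans (by positivity) hx.1

lemma floor_pow (k l : ℕ) (hkl : k ≤ l) (x : ℝ) :
    ⌊(2:ℝ)^k * x⌋₊ = ⌊(2:ℝ)^l * x⌋₊ / 2^(l-k) := by
  have h : (2:ℝ)^k * x = (2:ℝ)^l * x / ((2^(l-k) : ℕ) : ℝ) := by
    have h1 : (2:ℝ)^l = 2^k * 2^(l-k) := by rw [← pow_add]; congr 1; omega
    rw [h1]; push_cast; field_simp
  rw [h, Nat.floor_div_natCast]

lemma rad_shift (k : ℕ) (B : ℕ) (hk : B < k) {x : ℝ} (hx : 0 ≤ x) :
    rad k (x + 1/2^B) = rad k x := by
  unfold rad
  have h : (2:ℝ)^k * (x + 1/2^B) = (2:ℝ)^k * x + ((2^(k-B) : ℕ):ℝ) := by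
    have h1 : (2:ℝ)^k = 2^B * 2^(k-B) := by rw [← pow_add]; congr 1; omega
    rw [h1]; push_cast; field_simp
  rw [h, Nat.floor_add_natCast (by positivity), pow_add]
  have : Even (2^(k-B)) := (Nat.even_pow).mpr ⟨even_two, by omega⟩
  rw [this.neg_one_pow, mul_one]

lemma tm_shift (r B : ℕ) {x : ℝ} (hx : 0 ≤ x) : tm r B (x + 1/2^B) = tm r B x := by
  unfold tm
  apply Finset.prod_congr rfl
  intro i _
  exact rad_shift _ _ (by omega) hx

lemma dy_split (A i : ℕ) : dy A i = dy (A+1) (2*i) ∪ dy (A+1) (2*i+1) := by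
  unfold dy
  have h2 : (0:ℝ) < 2^A := by positivity
  have e1 : ((2*i:ℕ):ℝ) / 2^(A+1) = (i:ℝ)/2^A := by
    rw [pow_succ]; push_cast; field_simp
  have e2 : (((2*i+1:ℕ):ℝ)+1) / 2^(A+1) = ((i:ℝ)+1)/2^A := by
    rw [pow_succ]; push_cast; field_simp; ring
  have e3 : (((2*i:ℕ):ℝ)+1) / 2^(A+1) = ((2*i+1:ℕ):ℝ) / 2^(A+1) := by push_cast; ring
  rw [e1, e2, e3]
  rw [Set.Ico_union_Ico_eq_Ico]
  · rw [← e1]; gcongr; push_cast; linarith
  · rw [← e2]; gcongr; linarith

lemma dy_disj (A i : ℕ) : Disjoint (dy (A+1) (2*i)) (dy (A+1) (2*i+1)) := by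
  rw [Set.disjoint_left]
  intro x hx hx'
  have h0 := dy_nonneg hx
  rw [mem_dy_iff h0] at hx hx'
  omega

lemma dy_meas (A i : ℕ) : MeasurableSet (dy A i) := measurableSet_Ico

lemma poly_tm_integrable (p : Polynomial ℝ) (r A B i : ℕ) :
    IntegrableOn (fun x => p.eval x * tm r A x) (dy B i) := by
  have h1 : IntegrableOn (fun x => p.eval x) (dy B i) :=
    (p.continuous.integrableOn_Icc (a := (i:ℝ)/2^B) (b := ((i:ℝ)+1)/2^B)).mono_set Set.Ico_subset_Icc_self
  apply h1.mul_bdd (c := 1) (tm_measurable r A).aestronglyMeasurable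
  filter_upwards with x
  rw [Real.norm_eq_abs, tm_abs]

lemma setIntegral_dy_shift (A i : ℕ) (f : ℝ → ℝ) :
    ∫ x in dy A (i+1), f x = ∫ x in dy A i, f (x + 1/2^A) := by
  unfold dy
  rw [integral_Ico_eq_integral_Ioc, integral_Ico_eq_integral_Ioc,
    ← intervalIntegral.integral_of_le (by gcongr; linarith),
    ← intervalIntegral.integral_of_le (by gcongr; linarith)]
  rw [intervalIntegral.integral_comp_add_right (fun x => f x)]
  congr 1
  · push_cast; ring
  · push_cast; ring

/-- moments of the Thue-Morse block -/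
theorem moment (r : ℕ) : ∀ (A i : ℕ) (p : Polynomial ℝ), p.natDegree ≤ r →
    ∫ x in dy A i, p.eval x * tm r A x = p.coeff r * kap r / (2^A)^(r+1) := by
  induction r with
  | zero =>
    intro A i p hp
    rw [Polynomial.eq_C_of_natDegree_le_zero hp]
    simp only [Polynomial.eval_C, tm_zero, mul_one, kap, Polynomial.coeff_C_zero]
    rw [setIntegral_const]
    unfold dy
    rw [measureReal_def, Real.volume_Ico, ENNReal.toReal_ofReal (by
      rw [sub_nonneg]; gcongr; linarith)]
    simp only [smul_eq_mul]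
    field_simp
    ring
  | succ r ih =>
    intro A i p hp
    rw [dy_split, setIntegral_union (dy_disj A i) (dy_meas _ _) (poly_tm_integrable _ _ _ _ _)
      (poly_tm_integrable _ _ _ _ _)]
    have e1 : ∫ x in dy (A+1) (2*i), p.eval x * tm (r+1) A x
        = ∫ x in dy (A+1) (2*i), p.eval x * tm r (A+1) x := by
      apply setIntegral_congr_fun (dy_meas _ _)
      intro x hx
      have h0 := dy_nonneg hx
      have hx' := (mem_dy_iff h0).mp hx
      simp only [tm_succ]
      unfold rad
      rw [hx', pow_mul]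
      simp
    have e2 : ∫ x in dy (A+1) (2*i+1), p.eval x * tm (r+1) A x
        = - ∫ x in dy (A+1) (2*i+1), p.eval x * tm r (A+1) x := by
      rw [← integral_neg]
      apply setIntegral_congr_fun (dy_meas _ _)
      intro x hx
      have h0 := dy_nonneg hx
      have hx' := (mem_dy_iff h0).mp hx
      simp only [tm_succ]
      unfold rad
      rw [hx', pow_succ, pow_mul]
      simp
    rw [e1, e2]
    rw [setIntegral_dy_shift (A+1) (2*i) (fun x => p.eval x * tm r (A+1) x)]
    have e3 : ∫ x in dy (A+1) (2*i), p.eval (x + 1/2^(A+1)) * tm r (A+1) (x + 1/2^(A+1))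
        = ∫ x in dy (A+1) (2*i), (p.comp (Polynomial.X + Polynomial.C (1/2^(A+1)))).eval x * tm r (A+1) x := by
      apply setIntegral_congr_fun (dy_meas _ _)
      intro x hx
      simp only [Polynomial.eval_comp, Polynomial.eval_add, Polynomial.eval_X, Polynomial.eval_C]
      rw [tm_shift _ _ (dy_nonneg hx)]
    rw [e3, ← sub_eq_add_neg, ← integral_sub (poly_tm_integrable _ _ _ _ _) (poly_tm_integrable _ _ _ _ _)]
    have e4 : ∀ x, p.eval x * tm r (A+1) x - (p.comp (Polynomial.X + Polynomial.C (1/2^(A+1)))).eval x * tm r (A+1) x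
        = (p - p.comp (Polynomial.X + Polynomial.C (1/2^(A+1)))).eval x * tm r (A+1) x := by
      intro x; rw [Polynomial.eval_sub]; ring
    simp only [e4]
    set q : Polynomial ℝ := p - p.comp (Polynomial.X + Polynomial.C (1/2^(A+1))) with hq
    -- coefficients of q
    have hc : ∀ k, r ≤ k → q.coeff k = if k = r then - ((r:ℝ)+1) * (1/2^(A+1)) * p.coeff (r+1) else 0 := by
      intro k hk
      have hsum : p = ∑ j ∈ range (r+2), Polynomial.C (p.coeff j) * Polynomial.X^j := by
        conv_lhs => rw [p.as_sum_range_C_mul_X_pow' (n := r+2) (by omega)]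
      have hcomp : (p.comp (Polynomial.X + Polynomial.C (1/2^(A+1)))).coeff k
          = ∑ j ∈ range (r+2), p.coeff j * (((1/2^(A+1)):ℝ)^(j-k) * (j.choose k)) := by
        conv_lhs => rw [hsum]
        rw [Polynomial.sum_comp, Polynomial.finsetSum_coeff]
        apply Finset.sum_congr rfl
        intro j _
        rw [Polynomial.mul_comp, Polynomial.C_comp, Polynomial.X_pow_comp, Polynomial.coeff_C_mul,
          Polynomial.coeff_X_add_C_pow]
      rw [hq, Polynomial.coeff_sub, hcomp]
      by_cases hkr : k = r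
      · subst hkr
        rw [if_pos rfl, Finset.sum_range_succ, Finset.sum_range_succ]
        have hz : ∑ x ∈ range k, p.coeff x * ((1 / 2 ^ (A + 1):ℝ) ^ (x - k) * (x.choose k : ℝ)) = 0 := by
          apply Finset.sum_eq_zero
          intro x hx
          rw [Nat.choose_eq_zero_of_lt (Finset.mem_range.mp hx)]
          simp
        rw [hz]
        simp [Nat.choose_succ_self_right]
        ring
      · rw [if_neg hkr]
        have hk1 : r + 1 ≤ k := by omega
        by_cases hk2 : k = r + 1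
        · subst hk2
          rw [Finset.sum_range_succ]
          have hz : ∑ x ∈ range (r+1), p.coeff x * ((1 / 2 ^ (A + 1):ℝ) ^ (x - (r+1)) * (x.choose (r+1) : ℝ)) = 0 := by
            apply Finset.sum_eq_zero
            intro x hx
            rw [Nat.choose_eq_zero_of_lt (Finset.mem_range.mp hx)]
            simp
          rw [hz]
          simp
        · have hpk : p.coeff k = 0 := Polynomial.coeff_eq_zero_of_natDegree_lt (by omega)
          rw [hpk, Finset.sum_eq_zero]
          · simp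
          · intro x hx
            rw [Nat.choose_eq_zero_of_lt (by have := Finset.mem_range.mp hx; omega)]
            simp
    have hdeg : q.natDegree ≤ r := by
      rw [Polynomial.natDegree_le_iff_coeff_eq_zero]
      intro N hN
      rw [hc N hN.le, if_neg (by omega)]
    rw [ih (A+1) (2*i) q hdeg, hc r le_rfl, if_pos rfl]
    simp only [kap]
    rw [pow_succ (2:ℝ) A]
    have h2 : (2:ℝ)^A ≠ 0 := by positivity
    field_simp
    ring

end

end Pool.Agent.Helper150.Walsh
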