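import Mathlib
import Pool.Agent.Helper150.Walsh.Basic

set_option autoImplicit false

namespace Pool.Agent.Helper150.Walsh

open MeasureTheory Finset

noncomputable section

/-- Lebesgue measure on the unit interval -/
def mu1 : Measure ℝ := volume.restrict (Set.Ico (0:ℝ) 1)

instance : IsFiniteMeasure mu1 := by unfold mu1; infer_instance

/-- `H` depends only on the dyadic box of size `2^-A` times `2^-B`. -/
def Dep (A B : ℕ) (H : ℝ → ℝ → ℝ) : Prop :=
  ∀ x x' y y' : ℝ, 0 ≤ x → 0 ≤ x' → 0 ≤ y → 0 ≤ y' → ⌊(2:ℝ)^A * x⌋₊ = ⌊(2:ℝ)^A * x'⌋₊ →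
    ⌊(2:ℝ)^B * y⌋₊ = ⌊(2:ℝ)^B * y'⌋₊ → H x y = H x' y'

lemma floor_grid (A i : ℕ) : ⌊(2:ℝ)^A * ((i:ℝ)/2^A)⌋₊ = i := by
  have h2 : (2:ℝ)^A ≠ 0 := by positivity
  rw [mul_div_cancel₀ _ h2, Nat.floor_natCast]

lemma Dep.eval {A B : ℕ} {H : ℝ → ℝ → ℝ} (h : Dep A B H) {x y : ℝ} (hx : 0 ≤ x) (hy : 0 ≤ y) :
    H x y = H ((⌊(2:ℝ)^A * x⌋₊ : ℝ) / 2^A) ((⌊(2:ℝ)^B * y⌋₊ : ℝ) / 2^B) := by
  apply h _ _ _ _ hx (by positivity) hy (by positivity)
  · rw [floor_grid]
  · rw [floor_grid]

lemma floor_lt (A : ℕ) {x : ℝ} (hx : x < 1) : ⌊(2:ℝ)^A * x⌋₊ < 2^A := by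
  rw [Nat.floor_lt' (by positivity)]
  push_cast
  have : (0:ℝ) < 2^A := by positivity
  nlinarith

lemma dy_sub (A i : ℕ) (hi : i < 2^A) : dy A i ⊆ Set.Ico 0 1 := by
  intro x hx
  refine ⟨dy_nonneg hx, lt_of_lt_of_le hx.2 ?_⟩
  rw [div_le_one (by positivity)]
  exact_mod_cast hi

lemma mu1_indicator (A i : ℕ) (hi : i < 2^A) (f : ℝ → ℝ) :
    ∫ x, (dy A i).indicator f x ∂mu1 = ∫ x in dy A i, f x := by
  rw [integral_indicator (dy_meas A i)]
  unfold mu1
  rw [Measure.restrict_restrict (dy_meas A i), Set.inter_eq_left.mpr (dy_sub A i hi)]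

lemma ae_mem : ∀ᵐ z ∂(mu1.prod mu1), z.1 ∈ Set.Ico (0:ℝ) 1 ∧ z.2 ∈ Set.Ico (0:ℝ) 1 := by
  unfold mu1
  rw [Measure.prod_restrict]
  exact ae_restrict_mem (measurableSet_Ico.prod measurableSet_Ico)

lemma dep_expand {A B : ℕ} {H : ℝ → ℝ → ℝ} (h : Dep A B H) (f g : ℝ → ℝ) (x y : ℝ)
    (hx : x ∈ Set.Ico (0:ℝ) 1) (hy : y ∈ Set.Ico (0:ℝ) 1) :
    H x y * (f x * g y) = ∑ i ∈ range (2^A), ∑ j ∈ range (2^B),
      H ((i:ℝ)/2^A) ((j:ℝ)/2^B) * ((dy A i).indicator f x * (dy B j).indicator g y) := by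
  rw [Finset.sum_eq_single (⌊(2:ℝ)^A * x⌋₊)]
  · rw [Finset.sum_eq_single (⌊(2:ℝ)^B * y⌋₊)]
    · rw [Set.indicator_of_mem ((mem_dy_iff hx.1).mpr rfl), Set.indicator_of_mem ((mem_dy_iff hy.1).mpr rfl),
        ← h.eval hx.1 hy.1]
    · intro j _ hj
      rw [Set.indicator_of_notMem (s := dy B j)]
      · ring
      · rw [mem_dy_iff hy.1]; exact fun h => hj h.symm
    · intro hj
      exact absurd (Finset.mem_range.mpr (floor_lt B hy.2)) hj
  · intro i _ hi
    apply Finset.sum_eq_zero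
    intro j _
    rw [Set.indicator_of_notMem (s := dy A i)]
    · ring
    · rw [mem_dy_iff hx.1]; exact fun h => hi h.symm
  · intro hi
    exact absurd (Finset.mem_range.mpr (floor_lt A hx.2)) hi

lemma tm_mul_integrable {p : ℝ → ℝ} (hp : Integrable p mu1) (r A : ℕ) :
    Integrable (fun x => p x * tm r A x) mu1 := by
  apply hp.mul_bdd (c := 1) (tm_measurable r A).aestronglyMeasurable
  filter_upwards with x
  rw [Real.norm_eq_abs, tm_abs]

lemma term_integrable {f g : ℝ → ℝ} (hf : Integrable f mu1) (hg : Integrable g mu1) (A B i j : ℕ) (c : ℝ) :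
    Integrable (fun z : ℝ × ℝ => c * ((dy A i).indicator f z.1 * (dy B j).indicator g z.2)) (mu1.prod mu1) :=
  ((hf.indicator (dy_meas A i)).mul_prod (hg.indicator (dy_meas B j))).const_mul c

lemma dep_integrable {A B : ℕ} {H : ℝ → ℝ → ℝ} (h : Dep A B H) {f g : ℝ → ℝ}
    (hf : Integrable f mu1) (hg : Integrable g mu1) :
    Integrable (fun z : ℝ × ℝ => H z.1 z.2 * (f z.1 * g z.2)) (mu1.prod mu1) := by
  have h1 : Integrable (fun z : ℝ × ℝ => ∑ i ∈ range (2^A), ∑ j ∈ range (2^B),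
      H ((i:ℝ)/2^A) ((j:ℝ)/2^B) * ((dy A i).indicator f z.1 * (dy B j).indicator g z.2)) (mu1.prod mu1) := by
    apply integrable_finsetSum
    intro i _
    apply integrable_finsetSum
    intro j _
    exact term_integrable hf hg A B i j _
  refine h1.congr ?_
  filter_upwards [ae_mem] with z hz
  rw [dep_expand h f g z.1 z.2 hz.1 hz.2]

lemma dep_integral {A B : ℕ} {H : ℝ → ℝ → ℝ} (h : Dep A B H) {f g : ℝ → ℝ}
    (hf : Integrable f mu1) (hg : Integrable g mu1) :
    ∫ z, H z.1 z.2 * (f z.1 * g z.2) ∂(mu1.prod mu1) = ∑ i ∈ range (2^A), ∑ j ∈ range (2^B),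
      H ((i:ℝ)/2^A) ((j:ℝ)/2^B) * ((∫ x in dy A i, f x) * (∫ y in dy B j, g y)) := by
  have h1 : ∫ z, H z.1 z.2 * (f z.1 * g z.2) ∂(mu1.prod mu1)
      = ∫ z, ∑ i ∈ range (2^A), ∑ j ∈ range (2^B),
      H ((i:ℝ)/2^A) ((j:ℝ)/2^B) * ((dy A i).indicator f z.1 * (dy B j).indicator g z.2) ∂(mu1.prod mu1) := by
    apply integral_congr_ae
    filter_upwards [ae_mem] with z hz
    rw [dep_expand h f g z.1 z.2 hz.1 hz.2]
  rw [h1, integral_finsetSum]
  · apply Finset.sum_congr rfl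
    intro i hi
    rw [integral_finsetSum]
    · apply Finset.sum_congr rfl
      intro j hj
      rw [integral_const_mul, integral_prod_mul (fun x => (dy A i).indicator f x) (fun y => (dy B j).indicator g y),
        mu1_indicator A i (Finset.mem_range.mp hi), mu1_indicator B j (Finset.mem_range.mp hj)]
    · intro j _
      exact term_integrable hf hg A B i j _
  · intro i _
    apply integrable_finsetSum
    intro j _
    exact term_integrable hf hg A B i j _

/-- the one-sided kernel -/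
def ker (r : ℕ) (a x : ℝ) : ℝ := if a < x then (x - a)^(r-1) / ((r-1).factorial : ℝ) else 0

lemma ker_measurable (r : ℕ) (a : ℝ) : Measurable (ker r a) := by
  unfold ker
  apply Measurable.ite (measurableSet_lt measurable_const measurable_id)
  · fun_prop
  · fun_prop

lemma ker_integrable (r : ℕ) (a : ℝ) : Integrable (ker r a) mu1 := by
  have hb : ∀ x ∈ Set.Ico (0:ℝ) 1, ‖ker r a x‖ ≤ (1+|a|)^(r-1) / ((r-1).factorial : ℝ) := by
    intro x hx
    unfold ker
    split_ifs with h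
    · rw [Real.norm_eq_abs, abs_div, abs_pow, abs_of_pos (show (0:ℝ) < ((r-1).factorial : ℝ) by positivity)]
      gcongr
      rw [abs_of_pos (by linarith)]
      have := neg_abs_le a
      linarith [hx.2]
    · rw [norm_zero]; positivity
  unfold mu1
  apply Measure.integrableOn_of_bounded (M := (1+|a|)^(r-1) / ((r-1).factorial : ℝ))
  · simp
  · exact (ker_measurable r a).aestronglyMeasurable
  · filter_upwards [ae_restrict_mem measurableSet_Ico] with x hx using hb x hx

lemma ker_dy (r A i : ℕ) (hr : 1 ≤ r) {a : ℝ} (hi : i ≠ ⌊(2:ℝ)^A * a⌋₊) :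
    ∫ x in dy A i, ker r a x * tm r A x = 0 := by
  rcases Nat.lt_or_gt_of_ne hi with h | h
  · have : ∀ x ∈ dy A i, ker r a x * tm r A x = 0 := by
      intro x hx
      have h0 := dy_nonneg hx
      rw [mem_dy_iff h0] at hx
      have hxa : ¬ a < x := by
        intro hax
        have : ⌊(2:ℝ)^A * a⌋₊ ≤ ⌊(2:ℝ)^A * x⌋₊ := Nat.floor_le_floor (by gcongr)
        omega
      unfold ker
      rw [if_neg hxa, zero_mul]
    rw [setIntegral_congr_fun (dy_meas A i) this]
    simp
  · have hp : ∀ x ∈ dy A i, ker r a x * tm r A x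
        = ((Polynomial.X - Polynomial.C a)^(r-1) * Polynomial.C (1/((r-1).factorial:ℝ))).eval x * tm r A x := by
      intro x hx
      have h0 := dy_nonneg hx
      rw [mem_dy_iff h0] at hx
      have hxa : a < x := by
        by_contra hax
        push Not at hax
        have : ⌊(2:ℝ)^A * x⌋₊ ≤ ⌊(2:ℝ)^A * a⌋₊ := Nat.floor_le_floor (by gcongr)
        omega
      unfold ker
      rw [if_pos hxa]
      simp only [Polynomial.eval_mul, Polynomial.eval_pow, Polynomial.eval_sub, Polynomial.eval_X, Polynomial.eval_C]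
      ring
    rw [setIntegral_congr_fun (dy_meas A i) hp]
    have hdeg : ((Polynomial.X - Polynomial.C a)^(r-1) * Polynomial.C (1/((r-1).factorial:ℝ))).natDegree ≤ r - 1 := by
      refine (Polynomial.natDegree_mul_C_le _ _).trans ?_
      refine (Polynomial.natDegree_pow_le).trans ?_
      rw [Polynomial.natDegree_X_sub_C]; omega
    rw [moment r A i _ (by omega), Polynomial.coeff_eq_zero_of_natDegree_lt (by omega)]
    simp

/-- the normalised power -/
def pw (r : ℕ) (x : ℝ) : ℝ := x^r / (r.factorial : ℝ)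

lemma pw_integrable (r : ℕ) : Integrable (pw r) mu1 := by
  unfold mu1 pw
  have : Continuous (fun x : ℝ => x^r / (r.factorial : ℝ)) := by fun_prop
  exact (this.integrableOn_Icc (a := 0) (b := 1)).mono_set Set.Ico_subset_Icc_self

lemma pw_dy (r A i : ℕ) :
    ∫ x in dy A i, pw r x * tm r A x = (kap r / (r.factorial:ℝ)) / (2^A)^(r+1) := by
  have hp : ∀ x ∈ dy A i, pw r x * tm r A x
        = (Polynomial.C (1/(r.factorial:ℝ)) * Polynomial.X^r).eval x * tm r A x := by
    intro x hx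
    unfold pw
    simp only [Polynomial.eval_mul, Polynomial.eval_pow, Polynomial.eval_X, Polynomial.eval_C]
    ring
  rw [setIntegral_congr_fun (dy_meas A i) hp, moment r A i]
  · rw [Polynomial.coeff_C_mul_X_pow, if_pos rfl]; ring
  · exact Polynomial.natDegree_C_mul_X_pow_le _ _

lemma one_dy (r A i : ℕ) (hr : 1 ≤ r) : ∫ x in dy A i, tm r A x = 0 := by
  have := moment r A i (Polynomial.C 1) (by simp)
  simp only [Polynomial.eval_C, one_mul] at this
  rw [this, Polynomial.coeff_C_of_ne_zero (by omega)]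
  simp

/-- The discrepancy function. -/
def disc (r : ℕ) {m : ℕ} (w : Fin m → ℝ) (u v : Fin m → ℝ) (z : ℝ × ℝ) : ℝ :=
  (∑ i, w i * (ker r (u i) z.1 * ker r (v i) z.2)) - pw r z.1 * pw r z.2

theorem disc_pair (r : ℕ) (hr : 1 ≤ r) {m : ℕ} (w u v : Fin m → ℝ) (hu : ∀ i, 0 ≤ u i) (hv : ∀ i, 0 ≤ v i)
    {A B : ℕ} {H : ℝ → ℝ → ℝ} (h : Dep A B H) (hH : ∀ i, H (u i) (v i) = 0) :
    Integrable (fun z : ℝ × ℝ => disc r w u v z * (H z.1 z.2 * tm r A z.1 * tm r B z.2)) (mu1.prod mu1) ∧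
    ∫ z, disc r w u v z * (H z.1 z.2 * tm r A z.1 * tm r B z.2) ∂(mu1.prod mu1)
      = - ((kap r / (r.factorial:ℝ))^2 / ((2^A)^(r+1) * (2^B)^(r+1))
        * ∑ i ∈ range (2^A), ∑ j ∈ range (2^B), H ((i:ℝ)/2^A) ((j:ℝ)/2^B)) := by
  have e1 : ∀ z : ℝ × ℝ, disc r w u v z * (H z.1 z.2 * tm r A z.1 * tm r B z.2)
      = (∑ i, w i * (H z.1 z.2 * ((ker r (u i) z.1 * tm r A z.1) * (ker r (v i) z.2 * tm r B z.2))))
        - H z.1 z.2 * ((pw r z.1 * tm r A z.1) * (pw r z.2 * tm r B z.2)) := by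
    intro z
    unfold disc
    rw [sub_mul, Finset.sum_mul]
    congr 1
    · apply Finset.sum_congr rfl
      intro i _
      ring
    · ring
  have i1 : ∀ i, Integrable (fun z : ℝ × ℝ => w i * (H z.1 z.2 * ((ker r (u i) z.1 * tm r A z.1) * (ker r (v i) z.2 * tm r B z.2)))) (mu1.prod mu1) := by
    intro i
    exact (dep_integrable h (tm_mul_integrable (ker_integrable r (u i)) r A)
      (tm_mul_integrable (ker_integrable r (v i)) r B)).const_mul _
  have i2 : Integrable (fun z : ℝ × ℝ => H z.1 z.2 * ((pw r z.1 * tm r A z.1) * (pw r z.2 * tm r B z.2))) (mu1.prod mu1) :=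
    dep_integrable h (tm_mul_integrable (pw_integrable r) r A) (tm_mul_integrable (pw_integrable r) r B)
  constructor
  · simp only [e1]
    exact (integrable_finsetSum _ (fun i _ => i1 i)).sub i2
  · simp only [e1]
    rw [integral_sub (integrable_finsetSum _ (fun i _ => i1 i)) i2, integral_finsetSum _ (fun i _ => i1 i)]
    have z1 : ∀ i, ∫ z, w i * (H z.1 z.2 * ((ker r (u i) z.1 * tm r A z.1) * (ker r (v i) z.2 * tm r B z.2))) ∂(mu1.prod mu1) = 0 := by
      intro i
      rw [integral_const_mul, dep_integral h (tm_mul_integrable (ker_integrable r (u i)) r A)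
        (tm_mul_integrable (ker_integrable r (v i)) r B)]
      rw [Finset.sum_eq_zero, mul_zero]
      intro k _
      apply Finset.sum_eq_zero
      intro l _
      by_cases hk : k = ⌊(2:ℝ)^A * u i⌋₊
      · by_cases hl : l = ⌊(2:ℝ)^B * v i⌋₊
        · rw [hk, hl, ← h.eval (hu i) (hv i), hH, zero_mul]
        · rw [ker_dy r B l hr hl]; ring
      · rw [ker_dy r A k hr hk]; ring
    rw [Finset.sum_eq_zero (fun i _ => z1 i), zero_sub, dep_integral h (tm_mul_integrable (pw_integrable r) r A)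
        (tm_mul_integrable (pw_integrable r) r B)]
    congr 1
    rw [Finset.mul_sum]
    apply Finset.sum_congr rfl
    intro k _
    rw [Finset.mul_sum]
    apply Finset.sum_congr rfl
    intro l _
    rw [pw_dy, pw_dy]
    field_simp

lemma one_integrable : Integrable (fun _ : ℝ => (1:ℝ)) mu1 := integrable_const _

theorem mean_zero (r : ℕ) (hr : 1 ≤ r) {A B : ℕ} {H : ℝ → ℝ → ℝ} (h : Dep A B H) :
    Integrable (fun z : ℝ × ℝ => H z.1 z.2 * tm r A z.1 * tm r B z.2) (mu1.prod mu1) ∧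
    ∫ z, H z.1 z.2 * tm r A z.1 * tm r B z.2 ∂(mu1.prod mu1) = 0 := by
  have e1 : ∀ z : ℝ × ℝ, H z.1 z.2 * tm r A z.1 * tm r B z.2
      = H z.1 z.2 * ((1 * tm r A z.1) * (1 * tm r B z.2)) := by intro z; ring
  constructor
  · simp only [e1]
    exact dep_integrable h (tm_mul_integrable one_integrable r A) (tm_mul_integrable one_integrable r B)
  · simp only [e1]
    rw [dep_integral h (tm_mul_integrable one_integrable r A) (tm_mul_integrable one_integrable r B)]
    apply Finset.sum_eq_zero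
    intro k _
    apply Finset.sum_eq_zero
    intro l _
    simp only [one_mul]
    rw [one_dy r A k hr]; ring

end

end Pool.Agent.Helper150.Walsh
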