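import Mathlib
import Pool.Agent.Helper150.Walsh.Riesz

set_option autoImplicit false

namespace Pool.Agent.Helper150.Walsh

open MeasureTheory Finset

noncomputable section

lemma geo_bound (b : ℕ) (q : ℝ) (hq0 : 0 ≤ q) (hq : q ≤ 1/8) :
    ∑ a ∈ range b, (2:ℝ)^(b-(a+1)) * q^(b-a) ≤ 1/6 := by
  have h : ∀ b : ℕ, ∑ a ∈ range b, (2:ℝ)^(b-(a+1)) * q^(b-a) ≤ 1/6 := by
    intro b
    induction b with
    | zero => simp
    | succ b ih =>
      rw [Finset.sum_range_succ]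
      have e1 : ∑ x ∈ range b, (2:ℝ)^(b+1-(x+1)) * q^(b+1-x)
          = 2 * q * ∑ x ∈ range b, (2:ℝ)^(b-(x+1)) * q^(b-x) := by
        rw [Finset.mul_sum]
        apply Finset.sum_congr rfl
        intro x hx
        have := Finset.mem_range.mp hx
        have e2 : b+1-(x+1) = (b-(x+1)) + 1 := by omega
        have e3 : b+1-x = (b-x)+1 := by omega
        rw [e2, e3, pow_succ, pow_succ]
        ring
      rw [e1]
      have e4 : b+1-(b+1) = 0 := by omega
      have e5 : b+1-b = 1 := by omega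
      rw [e4, e5, pow_zero, pow_one, one_mul]
      nlinarith
  exact h b

theorem pairing (r n s J : ℕ) (hr : 1 ≤ r) (hs : r + 2 ≤ s) (hJ : s * J ≤ n) {m : ℕ} (hm : (m:ℝ) ≤ 2^n / 2)
    (w u v : Fin m → ℝ) (hu : ∀ i, 0 ≤ u i) (hv : ∀ i, 0 ≤ v i) :
    Integrable (fun z => disc r w u v z * (rp r n s J u v z - 1)) (mu1.prod mu1) ∧
    (kap r / (r.factorial:ℝ))^2 / (2^n)^r * (J/3)
      ≤ - ∫ z, disc r w u v z * (rp r n s J u v z - 1) ∂(mu1.prod mu1) := by
  have hrs : r ≤ s := by omega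
  obtain ⟨κ, hκ⟩ : ∃ κ, κ = (kap r / (r.factorial:ℝ))^2 := ⟨_, rfl⟩
  have hκ0 : 0 ≤ κ := by rw [hκ]; positivity
  have d1 := fun b => disc_pair r hr w u v hu hv (emp_dep n s u v b) (fun i => emp_node n s u v b i)
  have d2 := fun a b (h1 : a < b) (h2 : b < J) =>
    disc_pair r hr w u v hu hv (hab_dep r n s J hrs hJ u v a b h1 h2) (fun i => hab_node r n s u v a b i)
  have e1 : ∀ z, disc r w u v z * (rp r n s J u v z - 1)
      = ∑ b ∈ range J, disc r w u v z * (emp n s u v b z.1 z.2 * tm r (s*b) z.1 * tm r (n-s*b) z.2)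
      + ∑ b ∈ range J, ∑ a ∈ range b, disc r w u v z * (hab r n s u v a b z.1 z.2 * tm r (s*b) z.1 * tm r (n-s*a) z.2) := by
    intro z
    rw [rp_sub_one, mul_add, Finset.mul_sum, Finset.mul_sum]
    simp only [Finset.mul_sum]
  simp only [e1]
  have i1 : ∀ b ∈ range J, Integrable (fun z : ℝ × ℝ => disc r w u v z * (emp n s u v b z.1 z.2 * tm r (s*b) z.1 * tm r (n-s*b) z.2)) (mu1.prod mu1) :=
    fun b _ => (d1 b).1
  have i2 : ∀ b ∈ range J, ∀ a ∈ range b, Integrable (fun z : ℝ × ℝ => disc r w u v z * (hab r n s u v a b z.1 z.2 * tm r (s*b) z.1 * tm r (n-s*a) z.2)) (mu1.prod mu1) :=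
    fun b hb a ha => (d2 a b (Finset.mem_range.mp ha) (Finset.mem_range.mp hb)).1
  refine ⟨(integrable_finsetSum _ i1).add (integrable_finsetSum _ (fun b hb => integrable_finsetSum _ (i2 b hb))), ?_⟩
  rw [integral_add (integrable_finsetSum _ i1) (integrable_finsetSum _ (fun b hb => integrable_finsetSum _ (i2 b hb))),
      integral_finsetSum _ i1, integral_finsetSum _ (fun b hb => integrable_finsetSum _ (i2 b hb))]
  -- first order
  have f1 : ∀ b ∈ range J, κ / (2^n)^r * (1/2) ≤ - ∫ z, disc r w u v z * (emp n s u v b z.1 z.2 * tm r (s*b) z.1 * tm r (n-s*b) z.2) ∂(mu1.prod mu1) := by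
    intro b hb
    have hbJ := Finset.mem_range.mp hb
    have hsb : s * b ≤ n := (Nat.mul_le_mul_left _ hbJ.le).trans hJ
    rw [(d1 b).2, neg_neg, ← hκ]
    have hc := emp_count n s b hsb u v
    have e2 : ((2:ℝ)^(s*b))^(r+1) * ((2:ℝ)^(n-s*b))^(r+1) = (2^n)^r * 2^n := by
      rw [← mul_pow, ← pow_add, show s*b + (n-s*b) = n by omega, pow_succ]
    rw [e2]
    have h2n : (0:ℝ) < 2^n := by positivity
    calc κ / (2^n)^r * (1/2) = κ / ((2^n)^r * 2^n) * (2^n/2) := by field_simp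
      _ ≤ _ := by
        gcongr
        linarith
  have f2 : ∀ b ∈ range J, ∀ a ∈ range b,
      ∫ z, disc r w u v z * (hab r n s u v a b z.1 z.2 * tm r (s*b) z.1 * tm r (n-s*a) z.2) ∂(mu1.prod mu1)
        ≤ κ / (2^n)^r * ((2:ℝ)^(b-(a+1)) * ((1/2:ℝ)^(s*r))^(b-a)) := by
    intro b hb a ha
    have hbJ := Finset.mem_range.mp hb
    have hab' := Finset.mem_range.mp ha
    have hsb : s * b ≤ n := (Nat.mul_le_mul_left _ hbJ.le).trans hJ
    have hsa : s * a ≤ s * b := Nat.mul_le_mul_left _ hab'.le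
    rw [(d2 a b hab' hbJ).2, ← hκ, ← mul_neg, ← Finset.sum_neg_distrib]
    simp only [← Finset.sum_neg_distrib]
    have hsum : ∑ i ∈ range (2^(s*b)), ∑ j ∈ range (2^(n-s*a)), - hab r n s u v a b ((i:ℝ)/2^(s*b)) ((j:ℝ)/2^(n-s*a))
        ≤ 2^(s*b) * (2^(n-s*a) * 2^(b-(a+1))) := by
      calc _ ≤ ∑ i ∈ range (2^(s*b)), ∑ j ∈ range (2^(n-s*a)), (2:ℝ)^(b-(a+1)) := by
            apply Finset.sum_le_sum; intro i _
            apply Finset.sum_le_sum; intro j _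
            have := (abs_le.mp (hab_abs r n s u v a b ((i:ℝ)/2^(s*b)) ((j:ℝ)/2^(n-s*a)))).1
            linarith
        _ = _ := by
            simp only [Finset.sum_const, card_range, nsmul_eq_mul]
            push_cast
            ring
    have e2 : ((2:ℝ)^(s*b))^(r+1) * ((2:ℝ)^(n-s*a))^(r+1)
        = (2^n)^r * (2^(s*r))^(b-a) * (2^(s*b) * 2^(n-s*a)) := by
      have h1 : (2:ℝ)^(s*b) * 2^(n-s*a) = 2^n * 2^(s*(b-a)) := by
        rw [← pow_add, ← pow_add]; congr 1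
        rw [Nat.mul_sub]; omega
      rw [← mul_pow, pow_succ, h1, mul_pow]
      congr 2
      rw [← pow_mul, ← pow_mul]
      congr 1
      ring
    calc _ ≤ κ / (((2:ℝ)^(s*b))^(r+1) * ((2:ℝ)^(n-s*a))^(r+1)) * (2^(s*b) * (2^(n-s*a) * 2^(b-(a+1)))) := by
          gcongr
      _ = _ := by
          rw [e2, one_div, inv_pow, inv_pow]
          have h1 : (2:ℝ)^(s*b) ≠ 0 := by positivity
          have h2 : (2:ℝ)^(n-s*a) ≠ 0 := by positivity
          field_simp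
  have f3 : ∑ b ∈ range J, ∫ z, ∑ a ∈ range b, disc r w u v z * (hab r n s u v a b z.1 z.2 * tm r (s*b) z.1 * tm r (n-s*a) z.2) ∂(mu1.prod mu1)
      ≤ ∑ _b ∈ range J, κ / (2^n)^r * (1/6) := by
    apply Finset.sum_le_sum
    intro b hb
    rw [integral_finsetSum _ (i2 b hb)]
    calc _ ≤ ∑ a ∈ range b, κ / (2^n)^r * ((2:ℝ)^(b-(a+1)) * ((1/2:ℝ)^(s*r))^(b-a)) :=
          Finset.sum_le_sum (f2 b hb)
      _ = κ / (2^n)^r * ∑ a ∈ range b, ((2:ℝ)^(b-(a+1)) * ((1/2:ℝ)^(s*r))^(b-a)) := by rw [Finset.mul_sum]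
      _ ≤ κ / (2^n)^r * (1/6) := by
          gcongr
          apply geo_bound
          · positivity
          · have h3 : 3 ≤ s * r := by nlinarith
            calc (1/2:ℝ)^(s*r) ≤ (1/2:ℝ)^3 := pow_le_pow_of_le_one (by norm_num) (by norm_num) h3
              _ = 1/8 := by norm_num
  have f4 : ∑ _b ∈ range J, κ / (2^n)^r * (1/2) ≤ - ∑ b ∈ range J, ∫ z, disc r w u v z * (emp n s u v b z.1 z.2 * tm r (s*b) z.1 * tm r (n-s*b) z.2) ∂(mu1.prod mu1) := by
    rw [← Finset.sum_neg_distrib]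
    exact Finset.sum_le_sum f1
  rw [Finset.sum_const, card_range, nsmul_eq_mul] at f3 f4
  rw [← hκ]
  have : κ / (2^n)^r * ((J:ℝ)/3) = J * (κ / (2^n)^r * (1/2)) - J * (κ / (2^n)^r * (1/6)) := by ring
  rw [this]
  linarith

lemma mu1_univ : mu1 Set.univ = 1 := by
  unfold mu1
  simp

instance : IsProbabilityMeasure mu1 := ⟨mu1_univ⟩

theorem lower (r n s J : ℕ) (hr : 1 ≤ r) (hs : r + 2 ≤ s) (hJ : s * J ≤ n) {m : ℕ} (hm : (m:ℝ) ≤ 2^n / 2)
    (w u v : Fin m → ℝ) (hu : ∀ i, 0 ≤ u i) (hv : ∀ i, 0 ≤ v i) (B : ℝ)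
    (hB : ∀ᵐ z ∂(mu1.prod mu1), |disc r w u v z| ≤ B) :
    (kap r / (r.factorial:ℝ))^2 / (2^n)^r * (J/6) ≤ B := by
  obtain ⟨hi, h1⟩ := pairing r n s J hr hs hJ hm w u v hu hv
  obtain ⟨hi2, h2⟩ := rp_mean r n s J hr (by omega) hJ u v
  have hB0 : 0 ≤ B := by
    obtain ⟨z, hz⟩ := hB.exists
    exact (abs_nonneg _).trans hz
  have hi3 : Integrable (fun z => (rp r n s J u v z - 1) + 2) (mu1.prod mu1) := hi2.add (integrable_const _)
  have h3 : - ∫ z, disc r w u v z * (rp r n s J u v z - 1) ∂(mu1.prod mu1)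
      ≤ ∫ z, B * ((rp r n s J u v z - 1) + 2) ∂(mu1.prod mu1) := by
    rw [← integral_neg]
    apply integral_mono_ae hi.neg (hi3.const_mul B)
    filter_upwards [hB] with z hz
    have hp := rp_nonneg r n s J u v z
    have : |rp r n s J u v z - 1| ≤ (rp r n s J u v z - 1) + 2 := by
      rw [abs_le]; constructor <;> linarith
    calc -(disc r w u v z * (rp r n s J u v z - 1)) ≤ |disc r w u v z * (rp r n s J u v z - 1)| := neg_le_abs _
      _ = |disc r w u v z| * |rp r n s J u v z - 1| := abs_mul _ _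
      _ ≤ B * ((rp r n s J u v z - 1) + 2) := by gcongr
  rw [integral_const_mul, integral_add hi2 (integrable_const _), h2, integral_const] at h3
  simp at h3
  have : (kap r / (r.factorial:ℝ))^2 / (2^n)^r * (J/6) = (kap r / (r.factorial:ℝ))^2 / (2^n)^r * (J/3) / 2 := by ring
  rw [this]
  linarith

/-- final quantitative form -/
theorem lower_log (r : ℕ) (hr : 1 ≤ r) : ∃ C : ℝ, 0 < C ∧ ∀ m : ℕ, 1 ≤ m → ∀ (w u v : Fin m → ℝ),
    (∀ i, 0 ≤ u i) → (∀ i, 0 ≤ v i) → ∀ B : ℝ, (∀ᵐ z ∂(mu1.prod mu1), |disc r w u v z| ≤ B) →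
    C * Real.log m / (m:ℝ)^r ≤ B := by
  obtain ⟨κ, hκ⟩ : ∃ κ, κ = (kap r / (r.factorial:ℝ))^2 := ⟨_, rfl⟩
  have hκ0 : 0 < κ := by
    rw [hκ]
    have := kap_ne_zero r
    positivity
  refine ⟨κ / (6 * (r+2) * Real.log 2 * (2^(r+4))^r), by positivity, ?_⟩
  intro m hm w u v hu hv B hB
  have hm0 : (0:ℝ) < m := by exact_mod_cast hm
  obtain ⟨c, hc⟩ : ∃ c, c = Nat.clog 2 m := ⟨_, rfl⟩
  have hc1 : m ≤ 2^c := by rw [hc]; exact Nat.le_pow_clog (by norm_num) m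
  have hc2 : 2^c ≤ 2 * m := by
    rcases Nat.lt_or_ge 1 m with h | h
    · have h3 : 2^(c-1) < m := by rw [hc]; exact Nat.pow_pred_clog_lt_self (by norm_num) h
      have h4 : 1 ≤ c := by
        rw [hc]; exact Nat.succ_le_of_lt (Nat.clog_pos (by norm_num) h)
      have h5 : 2^c = 2 * 2^(c-1) := by
        rw [← pow_succ']; congr 1; omega
      omega
    · have : m = 1 := by omega
      subst this
      simp at hc
      subst hc
      norm_num
  have hlow := lower r (c + 1 + (r+2)) (r+2) ((c+1+(r+2))/(r+2)) hr le_rfl (Nat.mul_div_le _ _) (m := m) (by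
    have h6 : (m:ℝ) ≤ 2^c := by exact_mod_cast hc1
    have h7 : (2:ℝ)^(c+1+(r+2)) = 2^c * 2 * 2^(r+2) := by rw [pow_add, pow_succ]
    have h8 : (1:ℝ) ≤ 2^(r+2) := one_le_pow₀ (by norm_num)
    rw [h7]
    nlinarith [pow_pos (show (0:ℝ) < 2 by norm_num) c]) w u v hu hv B hB
  refine le_trans ?_ hlow
  rw [← hκ]
  -- J bound
  have hJ : Real.log m / ((r+2) * Real.log 2) ≤ (((c+1+(r+2))/(r+2) : ℕ) : ℝ) := by
    have h9 : Real.log m ≤ c * Real.log 2 := by
      rw [← Real.log_pow]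
      exact Real.log_le_log hm0 (by exact_mod_cast hc1)
    have hl2 : 0 < Real.log 2 := Real.log_pos (by norm_num)
    have h10 : (c:ℝ) ≤ (r+2) * (((c+1+(r+2))/(r+2) : ℕ) : ℝ) := by
      have : c ≤ (r+2) * ((c+1+(r+2))/(r+2)) := by
        have h11 := Nat.div_add_mod (c+1+(r+2)) (r+2)
        have h12 := Nat.mod_lt (c+1+(r+2)) (show 0 < r+2 by omega)
        omega
      exact_mod_cast this
    rw [div_le_iff₀ (by positivity)]
    calc Real.log m ≤ c * Real.log 2 := h9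
      _ ≤ ((r+2) * (((c+1+(r+2))/(r+2) : ℕ) : ℝ)) * Real.log 2 := by gcongr
      _ = _ := by ring
  have hpow : ((2:ℝ)^(c+1+(r+2)))^r ≤ (2^(r+4))^r * (m:ℝ)^r := by
    rw [← mul_pow]
    gcongr
    have h13 : ((2:ℝ)^c) ≤ 2 * m := by exact_mod_cast hc2
    have h14 : (2:ℝ)^(c+1+(r+2)) = 2^c * 2^(r+3) := by rw [← pow_add]; congr 1; omega
    rw [h14]
    calc (2:ℝ)^c * 2^(r+3) ≤ 2 * m * 2^(r+3) := by gcongr
      _ = 2^(r+4) * m := by rw [show r+4 = (r+3)+1 by omega, pow_succ]; ring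
  have hl2 : 0 < Real.log 2 := Real.log_pos (by norm_num)
  calc κ / (6 * (r+2) * Real.log 2 * (2^(r+4))^r) * Real.log m / (m:ℝ)^r
      = κ / ((2^(r+4))^r * (m:ℝ)^r) * ((Real.log m / ((r+2) * Real.log 2)) / 6) := by
        field_simp
    _ ≤ κ / (2^(c+1+(r+2)))^r * ((((c+1+(r+2))/(r+2) : ℕ) : ℝ) / 6) := by
        have hlm : 0 ≤ Real.log m := Real.log_nonneg (by exact_mod_cast hm)
        gcongr

end

end Pool.Agent.Helper150.Walsh
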