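import Mathlib
import Pool.Agent.Helper150.Walsh.Riesz

set_option autoImplicit false

namespace Pool.Agent.Helper150.WalshO

open MeasureTheory Finset Pool.Agent.Helper150.Walsh

noncomputable section

/-- indicator of node free boxes -/
def emp (n o s : ℕ) {m : ℕ} (u v : Fin m → ℝ) (j : ℕ) (x y : ℝ) : ℝ :=
  if ∃ i, ⌊(2:ℝ)^(o+s*j) * u i⌋₊ = ⌊(2:ℝ)^(o+s*j) * x⌋₊ ∧ ⌊(2:ℝ)^(n-(o+s*j)) * v i⌋₊ = ⌊(2:ℝ)^(n-(o+s*j)) * y⌋₊
    then 0 else 1

lemma emp_dep (n o s : ℕ) {m : ℕ} (u v : Fin m → ℝ) (j : ℕ) : Dep (o+s*j) (n-(o+s*j)) (emp n o s u v j) := by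
  intro x x' y y' _ _ _ _ h1 h2
  unfold emp
  rw [h1, h2]

lemma emp_node (n o s : ℕ) {m : ℕ} (u v : Fin m → ℝ) (j : ℕ) (i : Fin m) : emp n o s u v j (u i) (v i) = 0 := by
  unfold emp
  rw [if_pos ⟨i, rfl, rfl⟩]

lemma emp_abs (n o s : ℕ) {m : ℕ} (u v : Fin m → ℝ) (j : ℕ) (x y : ℝ) : |emp n o s u v j x y| ≤ 1 := by
  unfold emp
  split_ifs <;> simp

/-- the factor -/
def rf (r n o s : ℕ) {m : ℕ} (u v : Fin m → ℝ) (j : ℕ) (x y : ℝ) : ℝ :=
  emp n o s u v j x y * tm r (o+s*j) x * tm r (n-(o+s*j)) y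

lemma rf_abs (r n o s : ℕ) {m : ℕ} (u v : Fin m → ℝ) (j : ℕ) (x y : ℝ) : |rf r n o s u v j x y| ≤ 1 := by
  unfold rf
  rw [abs_mul, abs_mul, tm_abs, tm_abs, mul_one, mul_one]
  exact emp_abs _ _ _ _ _ _ _ _

lemma rf_dep (r n o s : ℕ) {m : ℕ} (u v : Fin m → ℝ) (j : ℕ) :
    Dep (o+s*j+r) (n-(o+s*j)+r) (rf r n o s u v j) := by
  have h1 := (emp_dep n o s u v j).mono (A' := o+s*j+r) (B' := n-(o+s*j)+r) (by omega) (by omega)
  exact (h1.mul (dep_tm_x r (o+s*j) (n-(o+s*j)+r))).mul (dep_tm_y r (o+s*j+r) (n-(o+s*j)))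

/-- partial products -/
def up (r n o s : ℕ) {m : ℕ} (u v : Fin m → ℝ) (a b : ℕ) (x y : ℝ) : ℝ :=
  ∏ l ∈ Ico (a+1) b, (1 + rf r n o s u v l x y)

lemma riesz_expand (f : ℕ → ℝ) (J : ℕ) :
    (∏ j ∈ range J, (1 + f j)) - 1
      = ∑ b ∈ range J, f b + ∑ b ∈ range J, ∑ a ∈ range b, f a * (∏ l ∈ Ico (a+1) b, (1 + f l)) * f b := by
  have key : ∀ b, ∏ l ∈ range b, (1 + f l) = 1 + ∑ a ∈ range b, f a * (∏ l ∈ Ico (a+1) b, (1 + f l)) := by
    intro b
    induction b with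
    | zero => simp
    | succ b ih =>
      rw [Finset.prod_range_succ, ih, Finset.sum_range_succ]
      have h1 : ∑ x ∈ range b, f x * ∏ l ∈ Ico (x+1) (b+1), (1 + f l)
          = (∑ x ∈ range b, f x * ∏ l ∈ Ico (x+1) b, (1 + f l)) * (1 + f b) := by
        rw [Finset.sum_mul]
        apply Finset.sum_congr rfl
        intro x hx
        rw [Finset.prod_Ico_succ_top (by have := Finset.mem_range.mp hx; omega)]
        ring
      rw [h1, Finset.Ico_self, Finset.prod_empty]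
      ring
  induction J with
  | zero => simp
  | succ J ih =>
    rw [Finset.prod_range_succ, Finset.sum_range_succ, Finset.sum_range_succ]
    have h2 : ∑ a ∈ range J, f a * (∏ l ∈ Ico (a+1) J, (1 + f l)) * f J
        = (∏ l ∈ range J, (1 + f l) - 1) * f J := by
      rw [key J, add_sub_cancel_left, Finset.sum_mul]
    rw [h2]
    linarith

/-- coefficient function of the interaction of levels `a < b`. -/
def hab (r n o s : ℕ) {m : ℕ} (u v : Fin m → ℝ) (a b : ℕ) (x y : ℝ) : ℝ :=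
  emp n o s u v a x y * tm r (o+s*a) x * up r n o s u v a b x y * emp n o s u v b x y * tm r (n-(o+s*b)) y

lemma hab_eq (r n o s : ℕ) {m : ℕ} (u v : Fin m → ℝ) (a b : ℕ) (x y : ℝ) :
    rf r n o s u v a x y * (∏ l ∈ Ico (a+1) b, (1 + rf r n o s u v l x y)) * rf r n o s u v b x y
      = hab r n o s u v a b x y * tm r (o+s*b) x * tm r (n-(o+s*a)) y := by
  unfold hab rf up rf
  ring

lemma hab_dep (r n o s J : ℕ) (hs : r ≤ s) (hJ : o + s * J ≤ n) {m : ℕ} (u v : Fin m → ℝ) (a b : ℕ) (hab' : a < b)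
    (hb : b < J) : Dep (o+s*b) (n-(o+s*a)) (hab r n o s u v a b) := by
  have hsb : o + s * b + s ≤ n := by
    have : s * (b+1) ≤ s * J := Nat.mul_le_mul_left _ hb
    rw [Nat.mul_succ] at this; omega
  have hsa : s * a + s ≤ s * b := by
    have : s * (a+1) ≤ s * b := Nat.mul_le_mul_left _ hab'
    rw [Nat.mul_succ] at this; omega
  have h1 := (emp_dep n o s u v a).mono (A' := o+s*b) (B' := n-(o+s*a)) (by omega) le_rfl
  have h2 := (dep_tm_x r (o+s*a) (n-(o+s*a))).mono (A' := o+s*b) (B' := n-(o+s*a)) (by omega) le_rfl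
  have h3 : Dep (o+s*b) (n-(o+s*a)) (up r n o s u v a b) := by
    unfold up
    apply Dep.prod
    intro l hl
    have hl' := Finset.mem_Ico.mp hl
    have hsl : s * l + s ≤ s * b := by
      have : s * (l+1) ≤ s * b := Nat.mul_le_mul_left _ hl'.2
      rw [Nat.mul_succ] at this; omega
    have hsl2 : s * a + s ≤ s * l := by
      have : s * (a+1) ≤ s * l := Nat.mul_le_mul_left _ hl'.1
      rw [Nat.mul_succ] at this; omega
    exact ((rf_dep r n o s u v l).mono (by omega) (by omega)).one_add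
  have h4 := (emp_dep n o s u v b).mono (A' := o+s*b) (B' := n-(o+s*a)) le_rfl (by omega)
  have h5 := (dep_tm_y r (o+s*b) (n-(o+s*b))).mono (A' := o+s*b) (B' := n-(o+s*a)) le_rfl (by omega)
  exact (((h1.mul h2).mul h3).mul h4).mul h5

lemma hab_node (r n o s : ℕ) {m : ℕ} (u v : Fin m → ℝ) (a b : ℕ) (i : Fin m) :
    hab r n o s u v a b (u i) (v i) = 0 := by
  unfold hab
  rw [emp_node]
  ring

lemma up_bound (r n o s : ℕ) {m : ℕ} (u v : Fin m → ℝ) (a b : ℕ) (x y : ℝ) :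
    |up r n o s u v a b x y| ≤ 2^(b-(a+1)) := by
  unfold up
  rw [abs_prod]
  calc ∏ l ∈ Ico (a+1) b, |1 + rf r n o s u v l x y| ≤ ∏ _l ∈ Ico (a+1) b, (2:ℝ) := by
        apply Finset.prod_le_prod
        · intro i _; exact abs_nonneg _
        · intro i _
          refine (abs_add_le _ _).trans ?_
          have := rf_abs r n o s u v i x y
          rw [abs_one]; linarith
    _ = 2^(b-(a+1)) := by rw [Finset.prod_const, Nat.card_Ico]

lemma hab_abs (r n o s : ℕ) {m : ℕ} (u v : Fin m → ℝ) (a b : ℕ) (x y : ℝ) :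
    |hab r n o s u v a b x y| ≤ 2^(b-(a+1)) := by
  unfold hab
  rw [abs_mul, abs_mul, abs_mul, abs_mul, tm_abs, tm_abs, mul_one, mul_one]
  calc |emp n o s u v a x y| * |up r n o s u v a b x y| * |emp n o s u v b x y|
      ≤ 1 * 2^(b-(a+1)) * 1 := by
        gcongr
        · exact emp_abs _ _ _ _ _ _ _ _
        · exact up_bound _ _ _ _ _ _ _ _ _ _
        · exact emp_abs _ _ _ _ _ _ _ _
    _ = _ := by ring

/-- the Riesz product -/
def rp (r n o s J : ℕ) {m : ℕ} (u v : Fin m → ℝ) (z : ℝ × ℝ) : ℝ :=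
  ∏ j ∈ range J, (1 + rf r n o s u v j z.1 z.2)

lemma rp_nonneg (r n o s J : ℕ) {m : ℕ} (u v : Fin m → ℝ) (z : ℝ × ℝ) : 0 ≤ rp r n o s J u v z := by
  unfold rp
  apply Finset.prod_nonneg
  intro j _
  have := abs_le.mp (rf_abs r n o s u v j z.1 z.2)
  linarith [this.1]

lemma rp_sub_one (r n o s J : ℕ) {m : ℕ} (u v : Fin m → ℝ) (z : ℝ × ℝ) :
    rp r n o s J u v z - 1 = ∑ b ∈ range J, (emp n o s u v b z.1 z.2 * tm r (o+s*b) z.1 * tm r (n-(o+s*b)) z.2)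
      + ∑ b ∈ range J, ∑ a ∈ range b, hab r n o s u v a b z.1 z.2 * tm r (o+s*b) z.1 * tm r (n-(o+s*a)) z.2 := by
  unfold rp
  rw [riesz_expand]
  congr 1
  apply Finset.sum_congr rfl
  intro b _
  apply Finset.sum_congr rfl
  intro a _
  exact hab_eq r n o s u v a b z.1 z.2

lemma rp_mean (r n o s J : ℕ) (hr : 1 ≤ r) (hs : r ≤ s) (hJ : o + s * J ≤ n) {m : ℕ} (u v : Fin m → ℝ) :
    Integrable (fun z => rp r n o s J u v z - 1) (mu1.prod mu1) ∧
    ∫ z, (rp r n o s J u v z - 1) ∂(mu1.prod mu1) = 0 := by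
  simp only [rp_sub_one]
  have i1 : ∀ b ∈ range J, Integrable (fun z : ℝ × ℝ => emp n o s u v b z.1 z.2 * tm r (o+s*b) z.1 * tm r (n-(o+s*b)) z.2) (mu1.prod mu1) :=
    fun b _ => (mean_zero r hr (emp_dep n o s u v b)).1
  have i2 : ∀ b ∈ range J, ∀ a ∈ range b, Integrable (fun z : ℝ × ℝ => hab r n o s u v a b z.1 z.2 * tm r (o+s*b) z.1 * tm r (n-(o+s*a)) z.2) (mu1.prod mu1) :=
    fun b hb a ha => (mean_zero r hr (hab_dep r n o s J hs hJ u v a b (Finset.mem_range.mp ha) (Finset.mem_range.mp hb))).1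
  constructor
  · exact (integrable_finsetSum _ i1).add (integrable_finsetSum _ (fun b hb => integrable_finsetSum _ (i2 b hb)))
  · rw [integral_add (integrable_finsetSum _ i1) (integrable_finsetSum _ (fun b hb => integrable_finsetSum _ (i2 b hb))),
      integral_finsetSum _ i1, integral_finsetSum _ (fun b hb => integrable_finsetSum _ (i2 b hb))]
    rw [Finset.sum_eq_zero, Finset.sum_eq_zero, add_zero]
    · intro b hb
      rw [integral_finsetSum _ (i2 b hb)]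
      apply Finset.sum_eq_zero
      intro a ha
      exact (mean_zero r hr (hab_dep r n o s J hs hJ u v a b (Finset.mem_range.mp ha) (Finset.mem_range.mp hb))).2
    · intro b _
      exact (mean_zero r hr (emp_dep n o s u v b)).2

/-- counting node free boxes -/
lemma emp_count (n o s j : ℕ) (hj : o + s * j ≤ n) {m : ℕ} (u v : Fin m → ℝ) :
    (2:ℝ)^n - m ≤ ∑ i ∈ range (2^(o+s*j)), ∑ k ∈ range (2^(n-(o+s*j))),
      emp n o s u v j ((i:ℝ)/2^(o+s*j)) ((k:ℝ)/2^(n-(o+s*j))) := by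
  have h1 : ∀ i k : ℕ, 1 - ∑ l : Fin m, (if ⌊(2:ℝ)^(o+s*j) * u l⌋₊ = i then (1:ℝ) else 0) *
      (if ⌊(2:ℝ)^(n-(o+s*j)) * v l⌋₊ = k then (1:ℝ) else 0) ≤ emp n o s u v j ((i:ℝ)/2^(o+s*j)) ((k:ℝ)/2^(n-(o+s*j))) := by
    intro i k
    unfold emp
    rw [floor_grid, floor_grid]
    split_ifs with h
    · obtain ⟨l, h1, h2⟩ := h
      have : (1:ℝ) ≤ ∑ l : Fin m, (if ⌊(2:ℝ)^(o+s*j) * u l⌋₊ = i then (1:ℝ) else 0) *
          (if ⌊(2:ℝ)^(n-(o+s*j)) * v l⌋₊ = k then (1:ℝ) else 0) := by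
        have hle := Finset.single_le_sum (f := fun l : Fin m => (if ⌊(2:ℝ)^(o+s*j) * u l⌋₊ = i then (1:ℝ) else 0) *
          (if ⌊(2:ℝ)^(n-(o+s*j)) * v l⌋₊ = k then (1:ℝ) else 0)) (fun l _ => by positivity) (Finset.mem_univ l)
        simp only [h1, h2, if_true, mul_one] at hle
        exact hle
      linarith
    · have : (0:ℝ) ≤ ∑ l : Fin m, (if ⌊(2:ℝ)^(o+s*j) * u l⌋₊ = i then (1:ℝ) else 0) *
          (if ⌊(2:ℝ)^(n-(o+s*j)) * v l⌋₊ = k then (1:ℝ) else 0) :=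
        Finset.sum_nonneg (fun l _ => by positivity)
      linarith
  refine le_trans ?_ (Finset.sum_le_sum (fun i _ => Finset.sum_le_sum (fun k _ => h1 i k)))
  simp only [Finset.sum_sub_distrib, Finset.sum_const, card_range, nsmul_eq_mul, mul_one]
  have e1 : ((2^(o+s*j) : ℕ):ℝ) * ((2^(n-(o+s*j)) : ℕ):ℝ) = (2:ℝ)^n := by
    push_cast; rw [← pow_add]; congr 1; omega
  rw [e1]
  have h2 : ∑ i ∈ range (2^(o+s*j)), ∑ k ∈ range (2^(n-(o+s*j))), ∑ l : Fin m,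
      (if ⌊(2:ℝ)^(o+s*j) * u l⌋₊ = i then (1:ℝ) else 0) * (if ⌊(2:ℝ)^(n-(o+s*j)) * v l⌋₊ = k then (1:ℝ) else 0)
      ≤ m := by
    have e2 : ∑ i ∈ range (2^(o+s*j)), ∑ k ∈ range (2^(n-(o+s*j))), ∑ l : Fin m,
      (if ⌊(2:ℝ)^(o+s*j) * u l⌋₊ = i then (1:ℝ) else 0) * (if ⌊(2:ℝ)^(n-(o+s*j)) * v l⌋₊ = k then (1:ℝ) else 0)
      = ∑ l : Fin m, (∑ i ∈ range (2^(o+s*j)), (if ⌊(2:ℝ)^(o+s*j) * u l⌋₊ = i then (1:ℝ) else 0)) *
        (∑ k ∈ range (2^(n-(o+s*j))), (if ⌊(2:ℝ)^(n-(o+s*j)) * v l⌋₊ = k then (1:ℝ) else 0)) := by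
      rw [Finset.sum_congr rfl (fun i _ => Finset.sum_comm), Finset.sum_comm]
      apply Finset.sum_congr rfl
      intro l _
      rw [Finset.sum_mul_sum]
    rw [e2]
    calc _ ≤ ∑ l : Fin m, (1:ℝ) := by
          apply Finset.sum_le_sum
          intro l _
          have b1 : ∀ (N c : ℕ), ∑ i ∈ range N, (if c = i then (1:ℝ) else 0) ≤ 1 := by
            intro N c
            rw [Finset.sum_ite_eq]
            split_ifs <;> simp
          have b0 : ∀ (N c : ℕ), 0 ≤ ∑ i ∈ range N, (if c = i then (1:ℝ) else 0) := by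
            intro N c
            exact Finset.sum_nonneg (fun _ _ => by positivity)
          calc _ ≤ (1:ℝ) * 1 := mul_le_mul (b1 _ _) (b1 _ _) (b0 _ _) (by norm_num)
            _ = 1 := by ring
      _ = m := by simp
  linarith

end

end Pool.Agent.Helper150.WalshO
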